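import Pool.Graph.R_seed8.W61.AJK.Main

/-!
MP_17c400_co, Q1: several nonsingular matrices over `F_p` and forbidden sets, with the explicit
threshold `p ≥ 12 (k t)³`.
-/

set_option autoImplicit false

namespace Pool.Agent.Results.MP_17c400_co.ForbiddenSets

open Pool.Agent.W61.AJK Pool.H433AJT

/-- vector families in which every subspace `W` contains at most `k dim W` members -/
theorem families (k t : ℕ) (hk : 1 ≤ k) (ht : 1 ≤ t) (p : ℕ) (hp : p.Prime)
    (hkp : 12 * (k * t) ^ 3 ≤ p) (n : ℕ) (ι : Type) [Fintype ι] (v : ι → Fin n → ZMod p)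
    (h : ∀ W : Submodule (ZMod p) (Fin n → ZMod p),
      {a : ι | v a ∈ W}.ncard ≤ k * Module.finrank (ZMod p) W)
    (S : ι → Finset (ZMod p)) (hS : ∀ a, (S a).card ≤ t) :
    ∃ x : Fin n → ZMod p, ∀ a, v a ⬝ᵥ x ∉ S a := by
  classical
  have : Fact p.Prime := ⟨hp⟩
  have hkt : 1 ≤ k * t := Nat.one_le_iff_ne_zero.2 (by positivity)
  obtain ⟨x, hx⟩ := main_general (p := p) (n := n) (k := k * t) hkt hkp
    (ι := Σ a : ι, {s // s ∈ S a}) (fun b => v b.1) (fun b => b.2.1) (by
      intro W
      have h1 : (Finset.univ.filter fun b : (Σ a : ι, {s // s ∈ S a}) => v b.1 ∈ W).card =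
          ∑ a : ι, if v a ∈ W then (S a).card else 0 := by
        rw [Finset.card_filter, Fintype.sum_sigma]
        refine Finset.sum_congr rfl fun a _ => ?_
        simp only []
        split_ifs
        · simp
        · simp
      have h2 : ∑ a : ι, (if v a ∈ W then (S a).card else 0) ≤
          ∑ a : ι, (if v a ∈ W then t else 0) := by
        refine Finset.sum_le_sum fun a _ => ?_
        split_ifs
        · exact hS a
        · exact le_rfl
      have h3 : ∑ a : ι, (if v a ∈ W then t else 0) = {a : ι | v a ∈ W}.ncard * t := by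
        rw [← Finset.sum_filter, Finset.sum_const, smul_eq_mul]
        congr 1
        rw [← Set.ncard_coe_finset]
        congr 1
        ext a
        simp
      have h4 := Nat.mul_le_mul_right t (h W)
      have h5 : (Finset.univ.filter fun b : (Σ a : ι, {s // s ∈ S a}) => v b.1 ∈ W).card ≤
          k * t * Module.finrank (ZMod p) W := by
        rw [h1]
        refine h2.trans (h3.le.trans (h4.trans (le_of_eq ?_)))
        ring
      convert h5)
  refine ⟨x, fun a ha => hx ⟨a, ⟨_, ha⟩⟩ rfl⟩

/-- **Nowhere-zero vectors for several nonsingular matrices, with forbidden sets.**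
Let `k, t ≥ 1` and let `p ≥ 12 (k t)³` be a prime.

1. For all `n`, all nonsingular `n × n` matrices `M_1, …, M_k` over `F_p` and all sets
`S i j ⊆ F_p` of at most `t` forbidden values there is `x` such that no coordinate
`(M_i x)_j` lies in `S i j`.
2. More generally, for all finite families of vectors `v_a ∈ F_p^n` such that every subspace `W`
contains at most `k dim W` members of the family, and all sets `S_a ⊆ F_p` with at most `t`
elements, there is `x` with `⟨v_a, x⟩ ∉ S_a` for all `a`. -/
theorem result (k t : ℕ) (hk : 1 ≤ k) (ht : 1 ≤ t) (p : ℕ) (hp : p.Prime)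
    (hkp : 12 * (k * t) ^ 3 ≤ p) :
    (∀ (n : ℕ) (M : Fin k → Matrix (Fin n) (Fin n) (ZMod p)), (∀ i, IsUnit (M i).det) →
      ∀ S : Fin k → Fin n → Finset (ZMod p), (∀ i j, (S i j).card ≤ t) →
        ∃ x : Fin n → ZMod p, ∀ i j, (M i).mulVec x j ∉ S i j) ∧
    (∀ (n : ℕ) (ι : Type) (_ : Fintype ι) (v : ι → Fin n → ZMod p),
      (∀ W : Submodule (ZMod p) (Fin n → ZMod p),
        {a : ι | v a ∈ W}.ncard ≤ k * Module.finrank (ZMod p) W) →
      ∀ S : ι → Finset (ZMod p), (∀ a, (S a).card ≤ t) →
        ∃ x : Fin n → ZMod p, ∀ a, v a ⬝ᵥ x ∉ S a) := by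
  classical
  have : Fact p.Prime := ⟨hp⟩
  refine ⟨fun n M hM S hS => ?_, fun n ι _ v h S hS => families k t hk ht p hp hkp n ι v h S hS⟩
  obtain ⟨x, hx⟩ := families k t hk ht p hp hkp n (Fin k × Fin n) (fun a => M a.1 a.2) (by
      intro W
      have hr : ∀ i, LinearIndependent (ZMod p) (fun j : Fin n => M i j) := by
        intro i
        have h1 : LinearIndependent (ZMod p) (M i).row := by
          rw [Matrix.linearIndependent_rows_iff_isUnit, Matrix.isUnit_iff_isUnit_det]
          exact hM i
        exact h1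
      have h0 : {a : Fin k × Fin n | M a.1 a.2 ∈ W}.ncard =
          (Finset.univ.filter fun a : Fin k × Fin n => M a.1 a.2 ∈ W).card := by
        rw [← Set.ncard_coe_finset]
        congr 1
        ext a
        simp
      have h1 : (Finset.univ.filter fun a : Fin k × Fin n => M a.1 a.2 ∈ W).card =
          ∑ i : Fin k, (Finset.univ.filter fun j : Fin n => M i j ∈ W).card := by
        rw [Finset.card_filter, Fintype.sum_prod_type]
        refine Finset.sum_congr rfl fun i _ => ?_
        rw [Finset.card_filter]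
      rw [h0, h1]
      calc ∑ i : Fin k, (Finset.univ.filter fun j : Fin n => M i j ∈ W).card
          ≤ ∑ _i : Fin k, Module.finrank (ZMod p) W :=
            Finset.sum_le_sum fun i _ => by convert TWOB_cnt _ (hr i) W
        _ = k * Module.finrank (ZMod p) W := by simp)
    (fun a => S a.1 a.2) (fun a => hS a.1 a.2)
  exact ⟨x, fun i j => hx (i, j)⟩

end Pool.Agent.Results.MP_17c400_co.ForbiddenSets
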